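import Pool.Agent.H61R3.KD4

set_option autoImplicit false

universe u

noncomputable section

namespace Pool.Agent.Results.MP_0f25e6_al.KernelDimension

/-- The kernel of left convolution by `α` on `l2(G)`: all square-summable `f` with `α * f = 0`. -/
def kernel {G : Type u} [Group G] (α : MonoidAlgebra ℂ G) : Set (lp (fun _ : G => ℂ) 2) :=
  {f | ∀ g : G, ∑ k ∈ α.coeff.support, α.coeff k * f (k⁻¹ * g) = 0}

open Classical in
/-- The von Neumann dimension of the kernel of left convolution by `α`: one minus the square of the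
distance from the basis vector at the identity of `G` to the kernel (this is the squared length of
the projection of that vector to the kernel). -/
def kerDim {G : Type u} [Group G] (α : MonoidAlgebra ℂ G) : ℝ :=
  1 - Metric.infDist (lp.single 2 (1 : G) (1 : ℂ)) (kernel α) ^ 2

lemma kernel_eq {G : Type u} [Group G] (α : MonoidAlgebra ℂ G) :
    kernel α = (LinearMap.ker (H61R3NG.Top G α : H61R3NG.E2 G →ₗ[ℂ] H61R3NG.E2 G) :
      Set (H61R3NG.E2 G)) := by
  ext f
  simp only [kernel, SetLike.mem_coe, LinearMap.mem_ker]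
  constructor
  · intro h
    apply lp.ext
    funext g
    have := H61R3NG.Top_apply_apply α f g
    rw [show ((H61R3NG.Top G α : H61R3NG.E2 G →ₗ[ℂ] H61R3NG.E2 G) f) = H61R3NG.Top G α f from rfl,
      this]
    exact h g
  · intro h g
    rw [← H61R3NG.Top_apply_apply α f g]
    have h' : H61R3NG.Top G α f = 0 := h
    rw [h']
    rfl

lemma kerDim_eq {G : Type u} [Group G] (α : MonoidAlgebra ℂ G) :
    kerDim α = H61R3NG.kd
      (LinearMap.ker (H61R3NG.Top G α : H61R3NG.E2 G →ₗ[ℂ] H61R3NG.E2 G)) := by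
  classical
  set V := LinearMap.ker (H61R3NG.Top G α : H61R3NG.E2 G →ₗ[ℂ] H61R3NG.E2 G) with hV
  unfold kerDim
  rw [kernel_eq]
  set d : H61R3NG.E2 G := H61R3NG.dl 1 with hd
  have hd2 : (lp.single 2 (1 : G) (1 : ℂ) : H61R3NG.E2 G) = d := by
    rw [hd]
    rfl
  rw [hd2]
  have h1 : Metric.infDist d (V : Set (H61R3NG.E2 G)) = ‖d - V.starProjection d‖ := by
    rw [Submodule.starProjection_minimal, Metric.infDist_eq_iInf]
    simp only [dist_eq_norm]
    rfl
  rw [h1]
  have h2 : ‖d‖ ^ 2 = ‖V.starProjection d‖ ^ 2 + ‖Vᗮ.starProjection d‖ ^ 2 :=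
    Submodule.norm_sq_eq_add_norm_sq_starProjection d V
  have h3 : Vᗮ.starProjection d = d - V.starProjection d := by
    rw [← Submodule.starProjection_orthogonal_val]
  have h4 : ‖d‖ = 1 := by
    rw [← hd2]
    simp
  rw [h3, h4] at h2
  unfold H61R3NG.kd H61R3NG.xi
  rw [← hd]
  linarith

/-- Let `G` be a group, `α` an element of the complex group algebra, and `x`, `y` two elements of
its support such that `x⁻¹ y` has infinite order (automatic for distinct `x`, `y` if `G` is
torsion-free). Let `a = |α(x)|`, `b = |α(y)|`, and let `c` be the sum of the absolute values of the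
other coefficients of `α`. Then the von Neumann dimension of the kernel of `α` on `l2(G)` is at
most `arccos ((a² + b² - c²) / (2ab)) / π`. -/
theorem result {G : Type u} [Group G] (α : MonoidAlgebra ℂ G) (x y : G)
    (hxy : ¬ IsOfFinOrder (x⁻¹ * y)) (hx : α.coeff x ≠ 0) (hy : α.coeff y ≠ 0)
    (a b c : ℝ) (ha : a = ‖α.coeff x‖) (hb : b = ‖α.coeff y‖)
    (hc : c = ∑ z ∈ α.coeff.support, ‖α.coeff z‖ - a - b) :
    kerDim α ≤ Real.arccos ((a ^ 2 + b ^ 2 - c ^ 2) / (2 * a * b)) / Real.pi := by
  subst ha hb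
  rw [kerDim_eq, mul_assoc]
  exact H61R3NG.main α x y hxy hx hy c hc

end Pool.Agent.Results.MP_0f25e6_al.KernelDimension
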