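import Pool.Agent.H917AT.Az

set_option autoImplicit false

universe u

namespace Pool.Agent.Results.MP_0f25e6_al.KernelGap

/-- The kernel of left convolution by `α` on `ℓ²(G)`: all square-summable `f` with `α * f = 0`. -/
def kernel {G : Type u} [Group G] (α : MonoidAlgebra ℂ G) : Set (lp (fun _ : G => ℂ) 2) :=
  {f | ∀ g : G, ∑ k ∈ α.coeff.support, α.coeff k * f (k⁻¹ * g) = 0}

open Classical in
/-- The von Neumann dimension of the kernel of left convolution by `α`: one minus the square of the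
distance from the basis vector at the identity to the kernel. -/
noncomputable def kerDim {G : Type u} [Group G] (α : MonoidAlgebra ℂ G) : ℝ :=
  1 - Metric.infDist (lp.single 2 (1 : G) (1 : ℂ)) (kernel α) ^ 2

open Pool.Agent.H917AT Pool.Agent.H917AT.Az

theorem mem_kernel {G : Type u} [Group G] (α : MonoidAlgebra ℂ G) (f : L2 G) :
    f ∈ kernel α ↔ Pool.Agent.H71R2.Idem.Kap.L α f = 0 := by
  constructor
  · intro h
    apply lp.ext
    funext g
    rw [Az.L_apply]
    exact h g
  · intro h g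
    have h1 := Az.L_apply α f g
    rw [h] at h1
    exact h1.symm

theorem kernel_eq {G : Type u} [Group G] (α : MonoidAlgebra ℂ G) :
    kernel α = (Kn α : Set (L2 G)) := by
  ext f
  rw [mem_kernel, SetLike.mem_coe, mem_Kn]

theorem kerDim_eq {G : Type u} [Group G] (α : MonoidAlgebra ℂ G) : kerDim α = kq α := by
  unfold kerDim kq pd
  rw [kernel_eq]

/-- Equivalence of
1. the analytic zero divisor conjecture: for every torsion-free group `G`, `α * f ≠ 0` for all
   nonzero `α ∈ ℂ[G]` and all nonzero `f ∈ ℓ²(G)`;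
2. for every finitely generated torsion-free group `G` there is `ε > 0` such that no `α ∈ ℂ[G]`
   satisfies `0 < dim ker α < ε`;
3. for every finitely generated torsion-free group `G` there is an integer `N > 0` such that
   `N * dim ker α` is an integer for all `α ∈ ℂ[G]`. -/
theorem result : List.TFAE [
    ∀ (G : Type u) [Group G], (∀ (g : G) (n : ℕ), 0 < n → g ^ n = 1 → g = 1) →
      ∀ (α : MonoidAlgebra ℂ G) (f : lp (fun _ : G => ℂ) 2), α ≠ 0 → f ≠ 0 →
        ∃ g : G, ∑ k ∈ α.coeff.support, α.coeff k * f (k⁻¹ * g) ≠ 0,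
    ∀ (G : Type u) [Group G], (∀ (g : G) (n : ℕ), 0 < n → g ^ n = 1 → g = 1) → Group.FG G →
      ∃ ε : ℝ, 0 < ε ∧ ∀ α : MonoidAlgebra ℂ G, ¬ (0 < kerDim α ∧ kerDim α < ε),
    ∀ (G : Type u) [Group G], (∀ (g : G) (n : ℕ), 0 < n → g ^ n = 1 → g = 1) → Group.FG G →
      ∃ N : ℕ, 0 < N ∧ ∀ α : MonoidAlgebra ℂ G, ∃ d : ℤ, (N : ℝ) * kerDim α = d] := by
  tfae_have 1 → 3 := by
    intro h G _ hG _
    refine ⟨1, one_pos, fun α => ?_⟩
    rw [kerDim_eq]
    by_cases hα : α = 0
    · exact ⟨1, by rw [hα, kq_zero]; simp⟩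
    · refine ⟨0, ?_⟩
      rw [kq_of_inj α]
      · simp
      · intro f hf
        by_contra hf0
        obtain ⟨g, hg⟩ := h G hG α f hα hf0
        exact hg ((mem_kernel α f).2 hf g)
  tfae_have 3 → 2 := by
    intro h G _ hG hfg
    obtain ⟨N, hN, hN2⟩ := h G hG hfg
    have hNr : (0 : ℝ) < N := by exact_mod_cast hN
    refine ⟨1 / N, by positivity, fun α hα => ?_⟩
    obtain ⟨d, hd⟩ := hN2 α
    have h1 : (0 : ℝ) < d := by rw [← hd]; exact mul_pos hNr hα.1
    have h2 : (d : ℝ) < 1 := by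
      rw [← hd]
      have := mul_lt_mul_of_pos_left hα.2 hNr
      rwa [mul_one_div, div_self hNr.ne'] at this
    have h3 : 0 < d := by exact_mod_cast h1
    have h4 : d < 1 := by exact_mod_cast h2
    omega
  tfae_have 2 → 1 := by
    intro h G _ hG α f hα hf
    by_contra hcon
    push Not at hcon
    have hL : Pool.Agent.H71R2.Idem.Kap.L α f = 0 := (mem_kernel α f).1 hcon
    obtain ⟨H, _, hH, hHfg, hsm⟩ := exists_small hG α hα hf hL
    obtain ⟨ε, hε, hno⟩ := h H hH hHfg
    obtain ⟨β, hβ0, hβ1⟩ := hsm ε hε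
    exact hno β (by rw [kerDim_eq]; exact ⟨hβ0, hβ1⟩)
  tfae_finish

end Pool.Agent.Results.MP_0f25e6_al.KernelGap
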