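import Pool.Agent.H61R3.SD

set_option autoImplicit false

universe u

noncomputable section

namespace Pool.Agent.Results.MP_0f25e6_al.SidonSupports

open Classical in
/-- The off-diagonal energy of `α`: the sum over `y ≠ 1` of the squared absolute value of the
coefficient of `α* α` at `y⁻¹`, that is, of the sum of `conj (α g) (α k)` over the pairs of distinct
elements `g`, `k` of the support of `α` with `k⁻¹ g = y`. -/
def offEnergy {G : Type u} [Group G] (α : MonoidAlgebra ℂ G) : ℝ :=
  ∑ y ∈ α.coeff.support.offDiag.image (fun z => z.2⁻¹ * z.1),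
    ‖∑ z ∈ α.coeff.support.offDiag.filter (fun z => z.2⁻¹ * z.1 = y),
      (starRingEnd ℂ) (α.coeff z.1) * α.coeff z.2‖ ^ 2

/-- Let `G` be any group, `f` a nonzero square-summable function on `G` whose support is a Sidon
set, in the sense that the quotients `p q⁻¹` of distinct elements of the support determine `p`, and
let `α` be an element of the complex group algebra with `α * f = 0`. Then the off-diagonal energy
of `α` is at least the fourth power of its `l2` norm. In particular, if `α` is not zero, the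
support of `α` is not a Sidon set (in the sense of the quotients `p⁻¹ q`). -/
theorem result {G : Type u} [Group G] (α : MonoidAlgebra ℂ G) (f : lp (fun _ : G => ℂ) 2)
    (hf : f ≠ 0)
    (hfS : ∀ p q r s : G, f p ≠ 0 → f q ≠ 0 → f r ≠ 0 → f s ≠ 0 → p ≠ q →
      p * q⁻¹ = r * s⁻¹ → p = r)
    (hαf : ∀ g : G, ∑ k ∈ α.coeff.support, α.coeff k * f (k⁻¹ * g) = 0) :
    (∑ g ∈ α.coeff.support, ‖α.coeff g‖ ^ 2) ^ 2 ≤ offEnergy α ∧
    (α ≠ 0 → ¬ ∀ p q r s : G, α.coeff p ≠ 0 → α.coeff q ≠ 0 → α.coeff r ≠ 0 → α.coeff s ≠ 0 →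
      p ≠ q → p⁻¹ * q = r⁻¹ * s → p = r) := by
  have h1 := H61R3SD.main α.coeff.support (fun g => α.coeff g) f hf hfS hαf
  refine ⟨h1, fun hα h => ?_⟩
  have h2 := H61R3SD.en_sidon α.coeff.support (fun g => α.coeff g) (fun p q r s hp hq hr hs =>
    h p q r s (Finsupp.mem_support_iff.1 hp) (Finsupp.mem_support_iff.1 hq)
      (Finsupp.mem_support_iff.1 hr) (Finsupp.mem_support_iff.1 hs))
  have hne : α.coeff.support.Nonempty := by
    rw [Finsupp.support_nonempty_iff]
    intro h0
    apply hα
    ext x
    rw [h0]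
    rfl
  have h3 : 0 < ∑ g ∈ α.coeff.support, ‖α.coeff g‖ ^ 4 := by
    apply Finset.sum_pos _ hne
    intro g hg
    have := Finsupp.mem_support_iff.1 hg
    positivity
  rw [h2] at h1
  linarith

end Pool.Agent.Results.MP_0f25e6_al.SidonSupports
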